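import Pool.Agent.Helper98.PS.Spec

set_option autoImplicit false

namespace Pool.Agent.Helper98.PS

open Pool.Agent.Helper75.PM (LF PMin Kp cm)

variable {G : Type} [Group G]

theorem cher_mono {E E' : Subgroup G} (h : E' ≤ E) (hE : Cher E) : Cher E' := by
  obtain ⟨A, hAE, hi, hab, hs⟩ := hE
  refine ⟨A ⊓ E', inf_le_right, ?_, fun a ha b hb => hab a ha.1 b hb.1,
    hs.subset fun a ha => ⟨ha.1.1, ha.2⟩⟩
  rw [Subgroup.inf_relIndex_right]
  exact fun h0 => hi (Subgroup.relIndex_eq_zero_of_le_right h h0)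

theorem cher_ext {D E : Subgroup G} (h : D ≤ E) (hi : D.relIndex E ≠ 0) (hD : Cher D) : Cher E := by
  obtain ⟨A, hAD, hi', hab, hs⟩ := hD
  exact ⟨A, hAD.trans h, Subgroup.relIndex_ne_zero_trans hi' hi, hab, hs⟩

theorem cher_sub (L : Subgroup G) {E : Subgroup G} (h : E ≤ L) (hE : Cher E) :
    Cher (E.subgroupOf L) := by
  obtain ⟨A, hAE, hi, hab, hs⟩ := hE
  refine ⟨A.subgroupOf L, fun a ha => hAE ha, ?_, fun a ha b hb => Subtype.ext (hab a ha b hb), ?_⟩
  · rw [Subgroup.relIndex_subgroupOf h]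
    exact hi
  · apply Set.Finite.of_finite_image (f := (Subtype.val : L → G)) _ Subtype.val_injective.injOn
    apply hs.subset
    rintro _ ⟨a, ⟨ha, q, hq, haq⟩, rfl⟩
    exact ⟨ha, q, hq, by have := congrArg (Subtype.val : L → G) haq; simpa using this⟩

theorem min_part : S_MIN := by
  intro p G _ hm hK
  by_contra hcon
  push Not at hcon
  have hOp : ∀ L : Subgroup G, Op p (Op p L) = Op p L := by
    intro L
    apply le_antisymm
    · unfold Op
      rw [Subgroup.closure_le]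
      rintro g ⟨hg, _⟩
      exact hg
    · unfold Op
      rw [Subgroup.closure_le]
      rintro g ⟨hg, hp⟩
      exact Subgroup.subset_closure ⟨Subgroup.subset_closure ⟨hg, hp⟩, hp⟩
  have hOpK : Op p (Kp p G) = Kp p G := by
    have : Kp p G = Op p ⊤ := by
      unfold Kp Op
      congr 1
      ext g
      simp [Pel]
    rw [this, hOp]
  have hle : ∀ L : Subgroup G, Op p L ≤ L := by
    intro L
    unfold Op
    rw [Subgroup.closure_le]
    exact fun g hg => hg.1
  have hstep : ∀ L : {L : Subgroup G // L ≤ Kp p G ∧ Op p L = L ∧ ¬ Cher L},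
      ∃ L' : {L : Subgroup G // L ≤ Kp p G ∧ Op p L = L ∧ ¬ Cher L}, L'.1 < L.1 := by
    rintro ⟨L, h1, h2, h3⟩
    obtain ⟨L', hL', hC⟩ := hcon L h1 h2 h3
    exact ⟨⟨Op p L', (hle L').trans (hL'.le.trans h1), hOp L', hC⟩, lt_of_le_of_lt (hle L') hL'⟩
  choose nx hnx using hstep
  let s : ℕ → {L : Subgroup G // L ≤ Kp p G ∧ Op p L = L ∧ ¬ Cher L} :=
    fun n => Nat.rec ⟨Kp p G, le_rfl, hOpK, hK⟩ (fun _ L => nx L) n
  apply hm
  refine ⟨fun n => (s n).1, fun i => ⟨hnx (s i), ?_⟩⟩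
  by_contra hno
  push Not at hno
  have h1 : (s i).1 ≤ (s (i + 1)).1 := by
    conv_lhs => rw [← (s i).2.2.1]
    unfold Op
    rw [Subgroup.closure_le]
    rintro g ⟨hg, k, hk⟩
    by_contra hg'
    exact hno g hg hg' k hk
  exact absurd h1 (not_le_of_gt (hnx (s i)))

theorem con_part (h1 : S_E1) (h2 : S_E2) (h3 : S_E3) (hF : S_F) (hC : S_CMN) : S_CON := by
  intro p K _ T x hG hN hM
  apply hF p K T x hG hN
  intro M hMn hMT
  by_cases h : M = T
  · exact Or.inr h
  · left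
    have hch := hM M hMn hMT h
    have hfin := h1 p K T x hG hN M hMn hMT hch
    have hE := h2 p K T x hG hN M hMn hMT (cm M x) (hC K M x hMn).1 (hC K M x hMn).2 hfin
    exact h3 p K T x hG hN M hMn hMT hE

end Pool.Agent.Helper98.PS
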