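import Pool.Agent.Helper98.PS.Small

set_option autoImplicit false

namespace Pool.Agent.Helper98.PS

open Pool.Agent.Helper75.PM (LF PMin Kp cm)

section
variable {H V : Type} [Group H] [AddCommGroup V] [Finite V] (ρ : Act H V)

theorem card_sup_le (A B C : AddSubgroup V) (h : C ≤ A ⊔ B) :
    Nat.card C ≤ Nat.card A * Nat.card B := by
  rw [← Nat.card_prod]
  have hf : ∀ c : C, ∃ ab : A × B, (ab.1 : V) + ab.2 = c := by
    intro c
    obtain ⟨a, ha, b, hb, hab⟩ := AddSubgroup.mem_sup.1 (h c.2)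
    exact ⟨(⟨a, ha⟩, ⟨b, hb⟩), hab⟩
  choose f hf using hf
  exact Nat.card_le_card_of_injective f (fun c d hcd => Subtype.ext (by rw [← hf c, ← hf d, hcd]))

theorem dS_mul (g h : H) : ρ.dS (g * h) ≤ ρ.dS g ⊔ ρ.dS h := by
  rintro w ⟨v, rfl⟩
  refine AddSubgroup.mem_sup.2 ⟨_, ⟨ρ.f h v, rfl⟩, _, ⟨v, rfl⟩, ?_⟩
  show ρ.f g (ρ.f h v) - ρ.f h v + (ρ.f h v - v) = ρ.f (g * h) v - v
  rw [ρ.mul']
  abel

theorem card_dS_le_of_map (g h : H) (φ : V → V) (hφ : Function.Injective φ)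
    (h1 : ∀ w ∈ ρ.dS g, φ w ∈ ρ.dS h) : Nat.card (ρ.dS g) ≤ Nat.card (ρ.dS h) :=
  Nat.card_le_card_of_injective (fun w : ρ.dS g => (⟨φ w, h1 w w.2⟩ : ρ.dS h))
    (fun a b hab => Subtype.ext (hφ (congrArg Subtype.val hab)))

theorem card_dS_inv (g : H) : Nat.card (ρ.dS g⁻¹) ≤ Nat.card (ρ.dS g) := by
  apply card_dS_le_of_map ρ g⁻¹ g (ρ.f g) (ρ.inj g)
  rintro w ⟨v, rfl⟩
  refine ⟨-v, ?_⟩
  show ρ.f g (-v) - (-v) = ρ.f g (ρ.f g⁻¹ v - v)
  rw [ρ.sub', ρ.f_inv, ρ.neg']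
  abel

theorem card_dS_conj (g b : H) : Nat.card (ρ.dS (b * g * b⁻¹)) ≤ Nat.card (ρ.dS g) := by
  apply card_dS_le_of_map ρ _ g (ρ.f b⁻¹) (ρ.inj b⁻¹)
  rintro w ⟨v, rfl⟩
  refine ⟨ρ.f b⁻¹ v, ?_⟩
  show ρ.f g (ρ.f b⁻¹ v) - ρ.f b⁻¹ v = ρ.f b⁻¹ (ρ.f (b * g * b⁻¹) v - v)
  rw [ρ.sub', ρ.mul', ρ.mul', ρ.inv_f]

end

theorem comm_part : S_COMM := by
  intro H V _ _ _ ρ x b
  have h0 : x * b * x⁻¹ * b⁻¹ = x * (b * x⁻¹ * b⁻¹) := by group
  rw [h0, pow_two]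
  refine (card_sup_le _ _ _ (dS_mul ρ x (b * x⁻¹ * b⁻¹))).trans (Nat.mul_le_mul_left _ ?_)
  exact (card_dS_conj ρ x⁻¹ b).trans (card_dS_inv ρ x)

theorem fpf_part : S_FPF := by
  intro H V _ _ _ ρ z hz
  have hinj : Function.Injective (ρ.hom z - AddMonoidHom.id V) := by
    rw [injective_iff_map_eq_zero]
    intro v hv
    exact hz v (sub_eq_zero.1 hv)
  have hsur := Finite.surjective_of_injective hinj
  have : ρ.dS z = ⊤ := AddMonoidHom.range_eq_top.2 hsur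
  rw [this]
  exact (AddSubgroup.card_top).symm

theorem ext_part (hAB : S_AB) : S_EXT := by
  intro p K _ T x hG V _ ρ n hn hnv W hW h1 h2
  have hTn := hG.nT
  -- action of powers
  have hpow : ∀ t ∈ T, ∀ v, ∀ k : ℕ, ρ.f (t ^ k) v = v + k • (ρ.f t v - v) := by
    intro t ht v k
    induction k with
    | zero => simp [ρ.one']
    | succ k ih =>
      rw [pow_succ', ρ.mul', ih, Act.hom_apply ρ t _ |>.symm, map_add, map_nsmul, Act.hom_apply,
        Act.hom_apply, h1 t ht _ (h2 t ht v), succ_nsmul]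
      abel
  let C : Subgroup K :=
    { carrier := {t | t ∈ T ∧ ∀ v, ρ.f t v = v}
      one_mem' := ⟨T.one_mem, ρ.one'⟩
      mul_mem' := fun {a b} ha hb => ⟨T.mul_mem ha.1 hb.1, fun v => by rw [ρ.mul', hb.2, ha.2]⟩
      inv_mem' := fun {a} ha => ⟨T.inv_mem ha.1, fun v => by
        conv_lhs => rw [← ha.2 v]
        exact ρ.inv_f a v⟩ }
  have hCn : C.Normal := by
    refine ⟨fun c hc g => ⟨hTn.conj_mem c hc.1 g, fun v => ?_⟩⟩
    rw [ρ.mul', ρ.mul', hc.2, ρ.f_inv]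
  have hC : C = T := by
    apply hAB p K T x hG C hCn (fun c hc => hc.1) n hn
    · intro t ht
      exact ⟨T.pow_mem ht n, fun v => by rw [hpow t ht, hnv, add_zero]⟩
    · intro s hs t ht
      refine ⟨T.mul_mem (T.mul_mem (T.mul_mem hs ht) (T.inv_mem hs)) (T.inv_mem ht), fun v => ?_⟩
      have key : ∀ a ∈ T, ∀ b ∈ T, ∀ v, ρ.f (a * b) v = ρ.f a v + ρ.f b v - v := by
        intro a ha b hb v
        rw [ρ.mul']
        have h3 : ρ.f b v = v + (ρ.f b v - v) := by abel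
        rw [h3, ρ.add', h1 a ha _ (h2 b hb v)]
        abel
      have h4 : ∀ v, ρ.f (s * t) v = ρ.f (t * s) v := fun v => by
        rw [key s hs t ht, key t ht s hs]; abel
      have h5 : s * t * s⁻¹ * t⁻¹ = (s * t) * (t * s)⁻¹ := by group
      rw [h5, ρ.mul', h4, ρ.f_inv]
  intro t ht v
  rw [← hC] at ht
  exact ht.2 v

theorem irr_part (hF : S_IRF) : S_IRR := by
  intro p K _ T x hG V _ ρ q hq hqv hI hfin
  haveI : Finite V := hF p K T x hG V ρ q hq hqv hI hfin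
  have hTn := hG.nT
  let φ : K →* Equiv.Perm V :=
    { toFun := fun k => ⟨ρ.f k, ρ.f k⁻¹, ρ.inv_f k, ρ.f_inv k⟩
      map_one' := by ext v; exact ρ.one' v
      map_mul' := fun a b => by ext v; exact ρ.mul' a b v }
  haveI := hTn
  haveI : (T ⊓ φ.ker).Normal := inferInstance
  have hi : (T ⊓ φ.ker).relIndex T ≠ 0 := by
    rw [Subgroup.inf_relIndex_left, Subgroup.relIndex_ker]
    exact Nat.card_pos.ne'
  have hC := hG.nofin (T ⊓ φ.ker) inferInstance inf_le_left hi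
  intro t ht v
  have h1 : t ∈ T ⊓ φ.ker := hC.symm ▸ ht
  have h2 : φ t = 1 := h1.2
  have := congrArg (fun e : Equiv.Perm V => e v) h2
  exact this

end Pool.Agent.Helper98.PS
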