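import Pool.Agent.Helper98.PS.Top

set_option autoImplicit false

namespace Pool.Agent.Helper98.PS

open Pool.Agent.Helper75.PM (LF PMin Kp cm)

/-- from the working form to the statement of the problem -/
theorem conv_part (hD : S_DIV) (hR : S_RES) (p : ℕ) (hp : p.Prime) (G : Type) [Group G]
    (hlf : ∀ s : Set G, s.Finite → (Subgroup.closure s : Set G).Finite)
    (hm : ¬ ∃ H : ℕ → Subgroup G, ∀ i : ℕ, H (i + 1) < H i ∧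
        ∃ g ∈ H i, g ∉ H (i + 1) ∧ ∃ k : ℕ, g ^ (p ^ k) = 1)
    (hs : ∃ n : ℕ, ∃ H : ℕ → Subgroup G, H 0 = ⊥ ∧ H n = ⊤ ∧
        ∀ i < n, H i ≤ H (i + 1) ∧ ((H i).subgroupOf (H (i + 1))).Normal ∧
          ((H i).relIndex (H (i + 1)) ≠ 0 ∨
            ∀ x ∈ H (i + 1), ∀ k : ℕ, x ^ (p ^ k) ∈ H i → x ∈ H i))
    (hsol : ∀ V : Subgroup G, V ≤ Subgroup.closure {g : G | ∃ k : ℕ, g ^ (p ^ k) = 1} →
      (V : Set G).Finite → (∀ a ∈ V, ∀ k : ℕ, a ^ (p ^ k) = 1 → a = 1) → Group.IsSolvable V) :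
    ∃ A : Subgroup G,
      A ≤ Subgroup.closure {g : G | ∃ k : ℕ, g ^ (p ^ k) = 1} ∧
      (A.subgroupOf (Subgroup.closure {g : G | ∃ k : ℕ, g ^ (p ^ k) = 1})).Normal ∧
      A.relIndex (Subgroup.closure {g : G | ∃ k : ℕ, g ^ (p ^ k) = 1}) ≠ 0 ∧
      (∀ a ∈ A, ∀ b ∈ A, a * b = b * a) ∧
      (∀ a ∈ A, ∀ m : ℕ, 0 < m → ∃ b ∈ A, b ^ m = a) ∧
      {a : G | a ∈ A ∧ ∃ q : ℕ, q.Prime ∧ a ^ q = 1}.Finite := by
  obtain ⟨n, H, hH⟩ := hs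
  obtain ⟨N, hN1, hN2, hN3⟩ := Pool.Agent.Helper75.PM.series p hp n G hlf ⟨H, hH⟩
  haveI : N.Characteristic := hN1
  have hC : Cher (Kp p G) := hR p G hp hlf hm ⟨N, inferInstance, hN2, hN3⟩ hsol
  obtain ⟨D, h1, h2, h3, h4, h5, m, hm0, h6⟩ := hD G (Kp p G) hlf hC
  refine ⟨D, h1, ⟨fun d hd g => ?_⟩, h2, h3, h4, h5⟩
  have hd' : (d : G) ∈ D := hd
  obtain ⟨e, he, hed⟩ := (h6 _).1 hd'
  show (g : G) * d * (g : G)⁻¹ ∈ D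
  refine (h6 _).2 ⟨(g : G) * e * (g : G)⁻¹, ?_, ?_⟩
  · exact Subgroup.mul_mem _ (Subgroup.mul_mem _ g.2 he) (Subgroup.inv_mem _ g.2)
  · rw [conj_pow, hed]

end Pool.Agent.Helper98.PS
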