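import Pool.Agent.Helper98.PS.Red

set_option autoImplicit false

namespace Pool.Agent.Helper98.PS

open Pool.Agent.Helper75.PM (LF PMin Kp cm)

theorem index_of_gen {K : Type} [Group K] (T : Subgroup K) (x : K) (hTn : T.Normal) (hlf : LF K)
    (hgen : T ⊔ Subgroup.zpowers x = ⊤) : T.index ≠ 0 := by
  have hfin : (Subgroup.zpowers x : Set K).Finite := by
    rw [Subgroup.zpowers_eq_closure]
    exact hlf {x} (Set.finite_singleton x)
  haveI : Finite (Subgroup.zpowers x) := hfin
  have h1 : T.relIndex (T ⊔ Subgroup.zpowers x) = T.relIndex (Subgroup.zpowers x) :=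
    Subgroup.relIndex_sup_left _ _
  rw [hgen, Subgroup.relIndex_top_right] at h1
  rw [h1]
  intro h0
  have h2 : T.relIndex (Subgroup.zpowers x) ∣ Nat.card (Subgroup.zpowers x) :=
    Subgroup.relIndex_dvd_card T (Subgroup.zpowers x)
  rw [h0] at h2
  exact Nat.card_pos.ne' (Nat.eq_zero_of_zero_dvd h2)

theorem fin_part (hQ : S_QUO) (hCQ : S_CHQ) (hT : S_TOP) (hC : S_CON) : S_FIN := by
  intro p K _ T x hG hM
  haveI := hG.nT
  let Z : Subgroup K := T ⊓ Subgroup.centralizer (T : Set K)
  haveI hZn : Z.Normal := by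
    refine ⟨fun z hz g => ⟨hG.nT.conj_mem z hz.1 g, ?_⟩⟩
    refine Subgroup.mem_centralizer_iff.2 ?_
    intro t ht
    have h1 : g⁻¹ * t * g ∈ T := by
      have := hG.nT.conj_mem t ht g⁻¹
      simpa using this
    have h2 := (Subgroup.mem_centralizer_iff.1 hz.2) _ h1
    calc t * (g * z * g⁻¹) = g * ((g⁻¹ * t * g) * z) * g⁻¹ := by group
      _ = g * (z * (g⁻¹ * t * g)) * g⁻¹ := by rw [h2]
      _ = g * z * g⁻¹ * t := by group
  have hZT : Z ≤ T := inf_le_left
  have hmem : ∀ z, z ∈ Z ↔ z ∈ T ∧ ∀ t ∈ T, z * t = t * z := by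
    intro z
    constructor
    · rintro ⟨h1, h2⟩
      exact ⟨h1, fun t ht => (Subgroup.mem_centralizer_iff.1 h2 t ht).symm⟩
    · rintro ⟨h1, h2⟩
      exact ⟨h1, Subgroup.mem_centralizer_iff.2 fun t ht => (h2 t ht).symm⟩
  have hbot := hC p (K ⧸ Z) (T.map (QuotientGroup.mk' Z)) (QuotientGroup.mk' Z x)
    (hQ p K T x hG Z hZT) (hT p K T x hG Z hmem) (hCQ p K T x hG hM Z hZT)
  have hTZ : T ≤ Z := by
    have := (Subgroup.map_eq_bot_iff _).1 hbot
    rwa [QuotientGroup.ker_mk'] at this
  have hab : ∀ a ∈ T, ∀ b ∈ T, a * b = b * a := fun a ha b hb => ((hmem a).1 (hTZ ha)).2 b hb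
  obtain ⟨A, _, _, h3, h4, _, h6⟩ := Pool.Agent.Helper75.PM.main p hG.hp K hG.lf hG.pm T hab hG.pf
    (index_of_gen T x hG.nT hG.lf hG.gen)
  rw [hG.kp] at h3
  exact ⟨A, le_top, h3, h4, h6⟩

theorem res_part (hmin : S_MIN) (hred : S_RED) (hfin : S_FIN) (hLS : S_LFS) (hPS : S_PMS)
    (hSOCQ : S_SOCQ) : S_RES := by
  intro p G _ hp hlf hpm ⟨N, hNn, hNi, hNpf⟩ hsol
  by_contra hch
  obtain ⟨L, hLK, hOp, hL, hLmin⟩ := hmin p G hpm hch
  haveI := hNn
  have hinj : Function.Injective L.subtype := Subgroup.subtype_injective L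
  have hmapOp : ∀ M : Subgroup L, (Op p M).map L.subtype = Op p (M.map L.subtype) := by
    intro M
    unfold Op
    rw [MonoidHom.map_closure]
    congr 1
    ext g
    constructor
    · rintro ⟨m, ⟨hm, k, hk⟩, rfl⟩
      exact ⟨⟨m, hm, rfl⟩, k, by rw [← map_pow, hk, map_one]⟩
    · rintro ⟨⟨m, hm, rfl⟩, k, hk⟩
      exact ⟨m, ⟨hm, k, hinj (by rw [map_pow, hk, map_one])⟩, rfl⟩
  have htop : Kp p L = ⊤ := by
    have h1 : Kp p L = Op p (⊤ : Subgroup L) := by
      unfold Kp Op
      congr 1
      ext g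
      simp [Pel]
    rw [h1]
    apply Subgroup.map_injective hinj
    rw [hmapOp]
    have h2 : (⊤ : Subgroup L).map L.subtype = L := by
      rw [← MonoidHom.range_eq_map, Subgroup.range_subtype]
    rw [h2, hOp]
  have h2 : (⊤ : Subgroup L).map L.subtype = L := by
    rw [← MonoidHom.range_eq_map, Subgroup.range_subtype]
  obtain ⟨x, hG, hM⟩ := hred p L (N.subgroupOf L) hp (hLS G L hlf) (hPS p G L hpm) inferInstance
    (by
      intro a ha k hk
      have : (a : G) = 1 := hNpf a ha k (by
        have := congrArg (Subtype.val : L → G) hk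
        simpa using this)
      exact Subtype.ext this)
    (by
      intro V hV hVf
      have hf' : ((V.map L.subtype : Subgroup G) : Set G).Finite := by
        rw [Subgroup.coe_map]
        exact hVf.image _
      haveI := hsol (V.map L.subtype)
        ((Subgroup.map_subtype_le V).trans hLK) hf' (by
          rintro _ ⟨a, ha, rfl⟩ k hk
          exact hNpf _ (hV ha) k hk)
      exact Group.isSolvable_of_isSolvable_injective
        (f := ((V.equivMapOfInjective L.subtype hinj).toMonoidHom))
        (V.equivMapOfInjective L.subtype hinj).injective)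
    (by
      intro h0
      have : N.relIndex L ∣ N.index := Subgroup.relIndex_dvd_index_of_normal N L
      unfold Subgroup.relIndex at this
      rw [h0] at this
      exact hNi (Nat.eq_zero_of_zero_dvd this))
    htop
    (by
      intro hc
      have := hSOCQ L G L.subtype ⊤ (hLS G L hlf) hc
      rw [h2] at this
      exact hL this)
    (by
      intro M hMne
      have hlt : M.map L.subtype < L := by
        refine lt_of_le_of_ne (Subgroup.map_subtype_le M) fun h => hMne ?_
        apply Subgroup.map_injective hinj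
        rw [h, h2]
      have h3 := hLmin _ hlt
      rw [← hmapOp] at h3
      have h4 := cher_sub L (Subgroup.map_subtype_le (Op p M)) h3
      have h5 : ((Op p M).map L.subtype).subgroupOf L = Op p M :=
        Subgroup.comap_map_eq_self_of_injective hinj _
      rwa [h5] at h4)
  apply hL
  have := hSOCQ L G L.subtype ⊤ (hLS G L hlf) (hfin p L _ x hG hM)
  rwa [h2] at this

end Pool.Agent.Helper98.PS
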