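import Pool.Agent.Helper98.PS.CF
import Pool.Graph.R_pool_sql_team_668148b0.Helper75.PM.P_opp

set_option autoImplicit false

namespace Pool.Agent.Helper98.PS

open Pool.Agent.Helper75.PM (LF PMin Kp cm)

theorem exists_lift {A B : Type} (f : A → B) (s : Set B) (T : Set A) (h : ∀ y ∈ s, ∃ t ∈ T, f t = y)
    (hs : s.Finite) : ∃ t : Set A, t ⊆ T ∧ t.Finite ∧ f '' t = s := by
  choose g hg1 hg2 using h
  haveI : Finite s := hs
  refine ⟨Set.range (fun y : s => g y.1 y.2), ?_, Set.finite_range _, ?_⟩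
  · rintro _ ⟨y, rfl⟩
    exact hg1 y.1 y.2
  · ext y
    constructor
    · rintro ⟨_, ⟨y', rfl⟩, rfl⟩
      rw [hg2 y'.1 y'.2]
      exact y'.2
    · intro hy
      exact ⟨_, ⟨⟨y, hy⟩, rfl⟩, hg2 y hy⟩

theorem lfs_part : S_LFS := by
  intro G _ H hlf s hs
  have h1 := hlf (Subtype.val '' s) (hs.image _)
  have h2 : (Subgroup.closure s).map H.subtype = Subgroup.closure (Subtype.val '' s) := by
    rw [MonoidHom.map_closure]; rfl
  rw [← h2, Subgroup.coe_map] at h1
  exact Set.Finite.of_finite_image h1 (Subtype.val_injective.injOn)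

theorem lfq_part : S_LFQ := by
  intro G _ N _ hlf s hs
  obtain ⟨t, ht, hts⟩ : ∃ t : Set G, t.Finite ∧ QuotientGroup.mk' N '' t = s := by
    obtain ⟨t, _, h1, h2⟩ := exists_lift (QuotientGroup.mk' N) s Set.univ
      (fun y _ => by
        obtain ⟨g, rfl⟩ := QuotientGroup.mk'_surjective N y
        exact ⟨g, trivial, rfl⟩) hs
    exact ⟨t, h1, h2⟩
  have h1 := hlf t ht
  rw [← hts, ← MonoidHom.map_closure, Subgroup.coe_map]
  exact h1.image _

theorem pms_part : S_PMS := by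
  intro p G _ H hm ⟨L, hL⟩
  apply hm
  refine ⟨fun i => (L i).map H.subtype, fun i => ?_⟩
  obtain ⟨h1, g, hg1, hg2, k, hk⟩ := hL i
  have hinj : Function.Injective H.subtype := Subgroup.subtype_injective H
  refine ⟨?_, g, ⟨g, hg1, rfl⟩, ?_, k, ?_⟩
  · exact (Subgroup.map_lt_map_iff_of_injective hinj).2 h1
  · rintro ⟨g', hg', h2⟩
    exact hg2 (hinj h2 ▸ hg')
  · have := congrArg (Subtype.val : H → G) hk
    simpa using this

theorem pmq_part : S_PMQ := by
  intro p G _ N _ hp hlf hm ⟨L, hL⟩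
  apply hm
  refine ⟨fun i => (L i).comap (QuotientGroup.mk' N), fun i => ?_⟩
  obtain ⟨h1, g, hg1, hg2, hk⟩ := hL i
  obtain ⟨y, hy, hyg⟩ := Pool.Agent.Helper75.PM.lift_p p hp hlf N g hk
  have hyg' : QuotientGroup.mk' N y = g := hyg
  refine ⟨?_, y, ?_, ?_, hy⟩
  · exact (Subgroup.comap_lt_comap_of_surjective (QuotientGroup.mk'_surjective N)).2 h1
  · rw [Subgroup.mem_comap, hyg']; exact hg1
  · rw [Subgroup.mem_comap, hyg']; exact hg2

theorem pfq_part : S_PFQ := by
  intro p G _ N T _ hp hlf hpf hNT a ha k hk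
  obtain ⟨t, ht, rfl⟩ := ha
  obtain ⟨hpos, hcop⟩ := Pool.Agent.Helper75.PM.opp_ord p hp hlf T hpf t ht
  have h1 : t ^ (p ^ k) ∈ N := by
    rw [← QuotientGroup.eq_one_iff]
    exact hk
  have hcop' : Nat.Coprime (p ^ k) (orderOf t) := Nat.Coprime.pow_left k hcop
  obtain ⟨m, hm⟩ := exists_pow_eq_self_of_coprime hcop'
  have h2 : t ∈ N := by
    rw [← hm]
    exact N.pow_mem h1 m
  exact (QuotientGroup.eq_one_iff t).2 h2

theorem lsq_part : S_LSQ := by
  intro G _ N T _ hlf hls hNT V hV hVf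
  obtain ⟨s, hsT, hsf, hs⟩ : ∃ s : Set G, s ⊆ (T : Set G) ∧ s.Finite ∧
      QuotientGroup.mk' N '' s = (V : Set (G ⧸ N)) := by
    exact exists_lift (QuotientGroup.mk' N) (V : Set (G ⧸ N)) (T : Set G)
      (fun y hy => by
        obtain ⟨t, ht, rfl⟩ := hV hy
        exact ⟨t, ht, rfl⟩) hVf
  have hWf := hlf s hsf
  have hWT : Subgroup.closure s ≤ T := (Subgroup.closure_le T).2 hsT
  haveI := hls _ hWT hWf
  have hVW : V ≤ (Subgroup.closure s).map (QuotientGroup.mk' N) := by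
    intro v hv
    have : v ∈ QuotientGroup.mk' N '' s := hs.symm ▸ hv
    obtain ⟨g, hg, rfl⟩ := this
    exact ⟨g, Subgroup.subset_closure hg, rfl⟩
  haveI : Group.IsSolvable ((Subgroup.closure s).map (QuotientGroup.mk' N)) :=
    Group.isSolvable_of_surjective
      (f := (QuotientGroup.mk' N).subgroupMap (Subgroup.closure s))
      ((QuotientGroup.mk' N).subgroupMap_surjective (Subgroup.closure s))
  exact Group.isSolvable_of_isSolvable_injective (f := Subgroup.inclusion hVW)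
    (Subgroup.inclusion_injective hVW)

end Pool.Agent.Helper98.PS
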