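import Pool.Agent.Helper98.PS.Her

set_option autoImplicit false

namespace Pool.Agent.Helper98.PS

open Pool.Agent.Helper75.PM (LF PMin Kp cm)

theorem kp_map {p : ℕ} {K Q : Type} [Group K] [Group Q] (f : K →* Q)
    (hf : Function.Surjective f) (h : Kp p K = ⊤) : Kp p Q = ⊤ := by
  rw [eq_top_iff]
  have h1 : (Kp p K).map f ≤ Kp p Q := by
    unfold Kp
    rw [MonoidHom.map_closure, Subgroup.closure_le]
    rintro _ ⟨g, ⟨k, hk⟩, rfl⟩
    exact Subgroup.subset_closure ⟨k, by rw [← map_pow, hk, map_one]⟩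
  rw [h, ← MonoidHom.range_eq_map, MonoidHom.range_eq_top.2 hf] at h1
  exact h1

theorem ab_part : S_AB := by
  classical
  intro p K _ T x hG C hCn hCT n hn hpow hcom
  haveI := hCn
  haveI := hG.nT
  have hsur := QuotientGroup.mk'_surjective C
  have hNn : (T.map (QuotientGroup.mk' C)).Normal := Subgroup.Normal.map inferInstance _ hsur
  haveI := hNn
  have hlfQ := lfq_part K C hG.lf
  have hpmQ := pmq_part p K C hG.hp hG.lf hG.pm
  have hpfQ := pfq_part p K C T hG.hp hG.lf hG.pf hCT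
  have hgen : T.map (QuotientGroup.mk' C) ⊔ Subgroup.zpowers (QuotientGroup.mk' C x) = ⊤ := by
    rw [← MonoidHom.map_zpowers, ← Subgroup.map_sup, hG.gen, ← MonoidHom.range_eq_map,
      MonoidHom.range_eq_top.2 hsur]
  have hab : ∀ a ∈ T.map (QuotientGroup.mk' C), ∀ b ∈ T.map (QuotientGroup.mk' C), a * b = b * a := by
    rintro _ ⟨s, hs, rfl⟩ _ ⟨t, ht, rfl⟩
    have h1 : QuotientGroup.mk' C (s * t * s⁻¹ * t⁻¹) = 1 :=
      (QuotientGroup.eq_one_iff _).2 (hcom s hs t ht)
    have h2 : s * t = (s * t * s⁻¹ * t⁻¹) * (t * s) := by group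
    rw [← map_mul, ← map_mul, h2, map_mul, h1, one_mul]
  obtain ⟨A, _, _, h3, h4, _, h6⟩ := Pool.Agent.Helper75.PM.main p hG.hp (K ⧸ C) hlfQ hpmQ
    (T.map (QuotientGroup.mk' C)) hab hpfQ
    (index_of_gen _ _ hNn hlfQ hgen)
  rw [kp_map (QuotientGroup.mk' C) hsur hG.kp] at h3
  letI : CommGroup A := { (inferInstance : Group A) with
    mul_comm := fun a b => Subtype.ext (h4 a a.2 b b.2) }
  have hfA : {a : A | a ^ n = 1}.Finite := by
    apply Pool.Agent.Helper75.PM.dpaux_fin _ n hn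
    apply Set.Finite.of_finite_image (f := (Subtype.val : A → K ⧸ C)) _
      Subtype.val_injective.injOn
    apply h6.subset
    rintro _ ⟨a, ⟨q, hq, haq⟩, rfl⟩
    exact ⟨a.2, q, hq, by
      have := congrArg (Subtype.val : A → K ⧸ C) haq
      simpa using this⟩
  have hfin1 : ((A ⊓ T.map (QuotientGroup.mk' C) : Subgroup (K ⧸ C)) : Set (K ⧸ C)).Finite := by
    apply (hfA.image (Subtype.val : A → K ⧸ C)).subset
    rintro a ⟨ha1, t, ht, rfl⟩
    refine ⟨⟨_, ha1⟩, ?_, rfl⟩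
    apply Subtype.ext
    show (QuotientGroup.mk' C t) ^ n = 1
    rw [← map_pow]
    exact (QuotientGroup.eq_one_iff _).2 (hpow t ht)
  have hrel : (A ⊓ T.map (QuotientGroup.mk' C)).relIndex (T.map (QuotientGroup.mk' C)) ≠ 0 := by
    rw [Subgroup.inf_relIndex_right]
    exact fun h0 => h3 (Subgroup.relIndex_eq_zero_of_le_right le_top h0)
  have hcard : Nat.card (T.map (QuotientGroup.mk' C)) ≠ 0 := by
    have h7 := Subgroup.relIndex_mul_relIndex (⊥ : Subgroup (K ⧸ C))
      (A ⊓ T.map (QuotientGroup.mk' C)) (T.map (QuotientGroup.mk' C)) bot_le inf_le_right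
    rw [Subgroup.relIndex_bot_left, Subgroup.relIndex_bot_left] at h7
    rw [← h7]
    refine Nat.mul_ne_zero ?_ hrel
    haveI : Finite (A ⊓ T.map (QuotientGroup.mk' C) : Subgroup (K ⧸ C)) := hfin1
    exact Nat.card_pos.ne'
  apply hG.nofin C hCn hCT
  have h8 := Subgroup.relIndex_ker T (QuotientGroup.mk' C)
  rw [QuotientGroup.ker_mk'] at h8
  rw [h8]
  exact hcard

theorem quo_part : S_QUO := by
  intro p K _ T x hG Z _ hZT
  have hsur := QuotientGroup.mk'_surjective Z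
  haveI := hG.nT
  refine ⟨hG.hp, lfq_part K Z hG.lf, pmq_part p K Z hG.hp hG.lf hG.pm,
    Subgroup.Normal.map inferInstance _ hsur, pfq_part p K Z T hG.hp hG.lf hG.pf hZT,
    lsq_part K Z T hG.lf hG.ls hZT, ?_, ?_, kp_map _ hsur hG.kp, ?_⟩
  · obtain ⟨k, hk⟩ := hG.xp
    exact ⟨k, by rw [← map_pow, hk, map_one]⟩
  · rw [← MonoidHom.map_zpowers, ← Subgroup.map_sup, hG.gen, ← MonoidHom.range_eq_map,
      MonoidHom.range_eq_top.2 hsur]
  · intro C hCn hCT hrel
    haveI := hCn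
    have hTZ : (T.map (QuotientGroup.mk' Z)).comap (QuotientGroup.mk' Z) = T := by
      rw [Subgroup.comap_map_eq, QuotientGroup.ker_mk', sup_eq_left.2 hZT]
    have h1 : C.comap (QuotientGroup.mk' Z) ≤ T := by
      rw [← hTZ]
      exact Subgroup.comap_mono hCT
    have h2 := hG.nofin (C.comap (QuotientGroup.mk' Z)) inferInstance h1
      (by rw [Subgroup.relIndex_comap]; exact hrel)
    rw [← h2, Subgroup.map_comap_eq_self_of_surjective hsur]

theorem chq_part (hS : S_SOCQ) : S_CHQ := by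
  intro p K _ T x hG hM Z _ hZT M hMn hMT hne
  have hsur := QuotientGroup.mk'_surjective Z
  haveI := hMn
  have hTZ : (T.map (QuotientGroup.mk' Z)).comap (QuotientGroup.mk' Z) = T := by
    rw [Subgroup.comap_map_eq, QuotientGroup.ker_mk', sup_eq_left.2 hZT]
  have hMM : (M.comap (QuotientGroup.mk' Z)).map (QuotientGroup.mk' Z) = M :=
    Subgroup.map_comap_eq_self_of_surjective hsur M
  have h1 : M.comap (QuotientGroup.mk' Z) ≤ T := by
    rw [← hTZ]
    exact Subgroup.comap_mono hMT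
  have h2 := hM (M.comap (QuotientGroup.mk' Z)) inferInstance h1
    (fun h => hne (by rw [← hMM, h]))
  have h3 := hS K (K ⧸ Z) (QuotientGroup.mk' Z) _ hG.lf h2
  have h4 : (cm (M.comap (QuotientGroup.mk' Z)) x).map (QuotientGroup.mk' Z) =
      cm M (QuotientGroup.mk' Z x) := by
    unfold cm
    rw [MonoidHom.map_closure]
    congr 1
    ext g
    constructor
    · rintro ⟨_, ⟨n, hn, rfl⟩, rfl⟩
      exact ⟨QuotientGroup.mk' Z n, hn, by simp only [map_mul, map_inv]⟩
    · rintro ⟨n, hn, rfl⟩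
      obtain ⟨m, rfl⟩ := hsur n
      exact ⟨_, ⟨m, hn, rfl⟩, by simp only [map_mul, map_inv]⟩
  rwa [h4] at h3

end Pool.Agent.Helper98.PS
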