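import Pool.Agent.Helper98.PS.Basic

set_option autoImplicit false

namespace Pool.Agent.Helper98.PS

open Pool.Agent.Helper75.PM (LF PMin Kp cm)

theorem pel_conj {G : Type} [Group G] {p : ℕ} {y : G} (g : G) (hy : Pel p y) :
    Pel p (g * y * g⁻¹) := by
  obtain ⟨k, hk⟩ := hy
  exact ⟨k, by rw [conj_pow, hk]; simp⟩

theorem pel_inv {G : Type} [Group G] {p : ℕ} {y : G} (hy : Pel p y) : Pel p y⁻¹ := by
  obtain ⟨k, hk⟩ := hy
  exact ⟨k, by rw [inv_pow, hk, inv_one]⟩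

theorem pel_zpow {G : Type} [Group G] {p : ℕ} {y : G} (hy : Pel p y) (j : ℤ) : Pel p (y ^ j) := by
  obtain ⟨k, hk⟩ := hy
  refine ⟨k, ?_⟩
  rw [← zpow_natCast, ← zpow_mul, mul_comm, zpow_mul, zpow_natCast, hk, one_zpow]

/-- `cm T y` lies in the subgroup generated by the `p`-elements of `T ⊔ ⟨y⟩` -/
theorem cm_le_Op {G : Type} [Group G] (p : ℕ) (T : Subgroup G) (y : G) (hy : Pel p y) :
    cm T y ≤ Op p (T ⊔ Subgroup.zpowers y) := by
  unfold cm
  rw [Subgroup.closure_le]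
  rintro g ⟨n, hn, rfl⟩
  have hy1 : y ∈ T ⊔ Subgroup.zpowers y :=
    (le_sup_right : _ ≤ T ⊔ Subgroup.zpowers y) (Subgroup.mem_zpowers y)
  have hn1 : n ∈ T ⊔ Subgroup.zpowers y := (le_sup_left : T ≤ _) hn
  apply Subgroup.mul_mem
  · exact Subgroup.subset_closure
      ⟨Subgroup.mul_mem _ (Subgroup.mul_mem _ hn1 hy1) (Subgroup.inv_mem _ hn1), pel_conj n hy⟩
  · exact Subgroup.subset_closure ⟨Subgroup.inv_mem _ hy1, pel_inv hy⟩

/-- modular law: if `M ≤ T` is normal, `T` has no `p`-elements and `M⟨y⟩` is everything then `M = T` -/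
theorem eq_of_sup {G : Type} [Group G] (p : ℕ) (hp : p.Prime) (M T : Subgroup G) (hMn : M.Normal)
    (hMT : M ≤ T) (hpf : PF p T) (y : G) (hy : Pel p y) (hlf : LF G)
    (h : M ⊔ Subgroup.zpowers y = ⊤) : M = T := by
  apply le_antisymm hMT
  intro t ht
  have h1 : t ∈ M ⊔ Subgroup.zpowers y := h ▸ Subgroup.mem_top t
  rw [Subgroup.mem_sup_of_normal_left] at h1
  obtain ⟨m, hm, z, hz, rfl⟩ := h1
  obtain ⟨j, rfl⟩ := Subgroup.mem_zpowers_iff.1 hz
  have h2 : y ^ j ∈ T := by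
    have := T.mul_mem (T.inv_mem (hMT hm)) ht
    simpa using this
  obtain ⟨k, hk⟩ := pel_zpow hy j
  rw [hpf _ h2 k hk, mul_one]
  exact hm

theorem red_part (h0 : S_S0) : S_RED := by
  intro p K _ T hp hlf hpm hTn hpf hls hTi hkp hch hmin
  -- for normal `C` of finite index with no p-elements there is a p-element y with C ⊔ ⟨y⟩ = ⊤
  have key : ∀ C : Subgroup K, C.Normal → C ≤ T → C.index ≠ 0 →
      ∃ y, Pel p y ∧ C ⊔ Subgroup.zpowers y = ⊤ := by
    intro C hCn hCT hCi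
    by_contra hcon
    push Not at hcon
    apply hch
    apply h0 p K C hp hlf hCn (fun a ha => hpf a (hCT ha)) hCi hkp
    intro y hy
    exact cher_mono (cm_le_Op p C y hy) (hmin _ (hcon y hy))
  obtain ⟨x, hx, hxg⟩ := key T hTn le_rfl hTi
  refine ⟨x, ⟨hp, hlf, hpm, hTn, hpf, hls, hx, hxg, hkp, ?_⟩, ?_⟩
  · intro C hCn hCT hCi
    have hCi' : C.index ≠ 0 := by
      rw [← Subgroup.relIndex_mul_index hCT]
      exact Nat.mul_ne_zero hCi hTi
    obtain ⟨y, hy, hyg⟩ := key C hCn hCT hCi'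
    exact eq_of_sup p hp C T hCn hCT hpf y hy hlf hyg
  · intro M hMn hMT hne
    apply cher_mono (cm_le_Op p M x hx)
    apply hmin
    intro h
    exact hne (eq_of_sup p hp M T hMn hMT hpf x hx hlf h)

end Pool.Agent.Helper98.PS
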