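import Pool.Agent.Helper98.PS.Fin

set_option autoImplicit false

namespace Pool.Agent.Helper98.PS

open Pool.Agent.Helper75.PM (LF PMin Kp cm)

theorem cmn_part : S_CMN := by
  intro K _ M x hMn
  have hx : ∀ n ∈ M, n * x * n⁻¹ * x⁻¹ ∈ M := by
    intro n hn
    have h1 : x * n⁻¹ * x⁻¹ ∈ M := hMn.conj_mem _ (M.inv_mem hn) x
    have h2 := M.mul_mem hn h1
    have h3 : n * x * n⁻¹ * x⁻¹ = n * (x * n⁻¹ * x⁻¹) := by group
    rw [h3]
    exact h2
  constructor
  · unfold cm
    rw [Subgroup.closure_le]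
    rintro g ⟨n, hn, rfl⟩
    exact hx n hn
  · intro t ht e he
    unfold cm at he ⊢
    induction he using Subgroup.closure_induction with
    | mem g hg =>
      obtain ⟨n, hn, rfl⟩ := hg
      have h1 : (t * n) * x * (t * n)⁻¹ * x⁻¹ ∈
          Subgroup.closure {g | ∃ n ∈ M, g = n * x * n⁻¹ * x⁻¹} :=
        Subgroup.subset_closure ⟨t * n, M.mul_mem ht hn, rfl⟩
      have h2 : t * x * t⁻¹ * x⁻¹ ∈ Subgroup.closure {g | ∃ n ∈ M, g = n * x * n⁻¹ * x⁻¹} :=
        Subgroup.subset_closure ⟨t, ht, rfl⟩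
      have h3 : t * (n * x * n⁻¹ * x⁻¹) * t⁻¹ =
          ((t * n) * x * (t * n)⁻¹ * x⁻¹) * (t * x * t⁻¹ * x⁻¹)⁻¹ := by group
      rw [h3]
      exact Subgroup.mul_mem _ h1 (Subgroup.inv_mem _ h2)
    | one => simpa using Subgroup.one_mem _
    | mul a b _ _ ha hb =>
      have := Subgroup.mul_mem _ ha hb
      have h3 : t * (a * b) * t⁻¹ = t * a * t⁻¹ * (t * b * t⁻¹) := by group
      rwa [h3]
    | inv a _ ha =>
      have := Subgroup.inv_mem _ ha
      have h3 : t * a⁻¹ * t⁻¹ = (t * a * t⁻¹)⁻¹ := by group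
      rwa [h3]

theorem ncl_part (hL : S_LOC) : S_NCL := by
  intro p K _ T x hG
  rw [eq_top_iff]
  intro k _
  obtain ⟨H, _, h2, _, _, h5⟩ := hL p K T x hG {k} (Set.finite_singleton k)
  apply h5 (Subgroup.normalClosure {x}) (Subgroup.subset_normalClosure rfl) _ (h2 rfl)
  intro t _ e he
  exact Subgroup.normalClosure_normal.conj_mem e he t

theorem e3_part (hN : S_NCL) : S_E3 := by
  intro p K _ T x hG hNA M hMn hMT hcm
  apply hNA M hMn hMT
  have hx : ∀ m ∈ M, m * x = x * m := by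
    intro m hm
    have h1 : m * x * m⁻¹ * x⁻¹ ∈ cm M x := Subgroup.subset_closure ⟨m, hm, rfl⟩
    rw [hcm, Subgroup.mem_bot] at h1
    have h2 : m * x = (m * x * m⁻¹ * x⁻¹) * (x * m) := by group
    rw [h2, h1, one_mul]
  have h3 : x ∈ Subgroup.centralizer (M : Set K) :=
    Subgroup.mem_centralizer_iff.2 fun m hm => hx m hm
  haveI := hMn
  have h4 : Subgroup.normalClosure {x} ≤ Subgroup.centralizer (M : Set K) :=
    Subgroup.normalClosure_le_normal (Set.singleton_subset_iff.2 h3)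
  rw [hN p K T x hG] at h4
  intro a ha b hb
  exact Subgroup.mem_centralizer_iff.1 (h4 (Subgroup.mem_top b)) a ha

theorem com_part : S_COM := by
  intro G _ A B hAt hA hB hD hBA hAB a ha b hb
  obtain ⟨n, hn, hna⟩ := isOfFinOrder_iff_pow_eq_one.1 (hAt a ha)
  obtain ⟨b', hb', rfl⟩ := hD b hb n hn
  -- c = [a, b']
  have hcA : a * b' * a⁻¹ * b'⁻¹ ∈ A := by
    have h1 : b' * a⁻¹ * b'⁻¹ ∈ A := hBA b' hb' a⁻¹ (A.inv_mem ha)
    have h2 := A.mul_mem ha h1
    have h3 : a * b' * a⁻¹ * b'⁻¹ = a * (b' * a⁻¹ * b'⁻¹) := by group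
    rwa [h3]
  have hcB : a * b' * a⁻¹ * b'⁻¹ ∈ B := B.mul_mem (hAB a ha b' hb') (B.inv_mem hb')
  obtain ⟨c, hc⟩ : ∃ c, c = a * b' * a⁻¹ * b'⁻¹ := ⟨_, rfl⟩
  rw [← hc] at hcA hcB
  have hca : c * a = a * c := hA c hcA a ha
  have hcb : c * b' = b' * c := hB c hcB b' hb'
  have h1 : a * b' = c * b' * a := by rw [hc]; group
  -- a * b'^k = c^k * b'^k * a
  have hk : ∀ k : ℕ, a * b' ^ k = c ^ k * b' ^ k * a := by
    intro k
    induction k with
    | zero => simp
    | succ k ih =>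
      have hcbk : Commute c b' := hcb
      have h2 : c ^ k * b' ^ k * (c * b' * a) = c ^ (k + 1) * b' ^ (k + 1) * a := by
        rw [pow_succ c, pow_succ b']
        have h3 : b' ^ k * c = c * b' ^ k := ((hcbk.pow_right k).eq).symm
        calc c ^ k * b' ^ k * (c * b' * a) = c ^ k * (b' ^ k * c) * b' * a := by group
          _ = c ^ k * (c * b' ^ k) * b' * a := by rw [h3]
          _ = _ := by group
      calc a * b' ^ (k + 1) = a * b' ^ k * b' := by rw [pow_succ]; group
        _ = c ^ k * b' ^ k * (a * b') := by rw [ih]; group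
        _ = c ^ k * b' ^ k * (c * b' * a) := by rw [h1]
        _ = _ := h2
  -- c ^ n = 1 since a ^ n = 1
  have hck : ∀ k : ℕ, a ^ k * b' = c ^ k * b' * a ^ k := by
    intro k
    induction k with
    | zero => simp
    | succ k ih =>
      have hca' : Commute c a := hca
      calc a ^ (k + 1) * b' = a * (a ^ k * b') := by rw [pow_succ']; group
        _ = a * (c ^ k * b' * a ^ k) := by rw [ih]
        _ = (a * c ^ k) * b' * a ^ k := by group
        _ = (c ^ k * a) * b' * a ^ k := by rw [((hca'.pow_left k).eq)]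
        _ = c ^ k * (a * b') * a ^ k := by group
        _ = c ^ k * (c * b' * a) * a ^ k := by rw [h1]
        _ = c ^ (k + 1) * b' * a ^ (k + 1) := by rw [pow_succ c, pow_succ' a]; group
  have hcn : c ^ n = 1 := by
    have := hck n
    rw [hna, one_mul, mul_one] at this
    calc c ^ n = (c ^ n * b') * b'⁻¹ := by group
      _ = b' * b'⁻¹ := by rw [← this]
      _ = 1 := by group
  rw [hk n, hcn, one_mul]

theorem half_part : S_HALF := by
  classical
  intro Ω _ σ hσ
  haveI : Finite (Set Ω) := inferInstance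
  obtain ⟨S, hS⟩ := Set.Finite.exists_maximal (s := {S : Set Ω | ∀ ω ∈ S, σ ω ∉ S})
    (Set.toFinite _) ⟨∅, fun ω h => absurd h (Set.notMem_empty ω)⟩
  refine ⟨S, hS.1, fun ω => ?_⟩
  by_contra hcon
  push Not at hcon
  obtain ⟨h1, h2, h3⟩ := hcon
  have h4 : insert ω S ∈ {S : Set Ω | ∀ ω ∈ S, σ ω ∉ S} := by
    intro a ha hb
    rcases ha with rfl | ha
    · rcases hb with hb | hb
      · exact hσ a hb
      · exact h2 hb
    · rcases hb with hb | hb
      · exact h3 a ha hb.symm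
      · exact hS.1 a ha hb
  exact h1 (hS.2 h4 (Set.subset_insert ω S) (Set.mem_insert ω S))

end Pool.Agent.Helper98.PS
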