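import Mathlib
import Pool.Graph.R_pool_sql_team_668148b0.Helper75.PM.P_main
import Pool.Graph.R_pool_sql_team_668148b0.Helper75.PM.P_series

set_option autoImplicit false

/-! Swarm PS (problem MP_8fcd2c_al): definitions and the exact statements of the parts.
`LF`, `PMin`, `Kp`, `cm` come from the library module `Helper75.PM.Defs`. -/

namespace Pool.Agent.Helper98.PS

open Pool.Agent.Helper75.PM (LF PMin Kp cm)

/-- `x` is a `p`-element. -/
def Pel (p : ℕ) {G : Type} [Group G] (x : G) : Prop := ∃ k : ℕ, x ^ (p ^ k) = 1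

/-- `N` has no nontrivial `p`-elements. -/
def PF (p : ℕ) {G : Type} [Group G] (N : Subgroup G) : Prop :=
  ∀ a ∈ N, ∀ k : ℕ, a ^ (p ^ k) = 1 → a = 1

/-- every finite subgroup of `N` is soluble -/
def LS {G : Type} [Group G] (N : Subgroup G) : Prop :=
  ∀ V : Subgroup G, V ≤ N → (V : Set G).Finite → Group.IsSolvable V

/-- the subgroup generated by the `p`-elements of `L` -/
def Op (p : ℕ) {G : Type} [Group G] (L : Subgroup G) : Subgroup G :=
  Subgroup.closure {g | g ∈ L ∧ Pel p g}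

def Abel {G : Type} [Group G] (A : Subgroup G) : Prop := ∀ a ∈ A, ∀ b ∈ A, a * b = b * a

def Soc {G : Type} [Group G] (A : Subgroup G) : Set G := {a | a ∈ A ∧ ∃ q : ℕ, q.Prime ∧ a ^ q = 1}

def Divb {G : Type} [Group G] (A : Subgroup G) : Prop :=
  ∀ a ∈ A, ∀ m : ℕ, 0 < m → ∃ b ∈ A, b ^ m = a

/-- Chernikov (for locally finite groups): an abelian subgroup of finite index with finite socle. -/
def Cher {G : Type} [Group G] (E : Subgroup G) : Prop :=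
  ∃ A : Subgroup G, A ≤ E ∧ A.relIndex E ≠ 0 ∧ Abel A ∧ (Soc A).Finite

/-- `T` normalises `E` (element form) -/
def Nrm {G : Type} [Group G] (T E : Subgroup G) : Prop := ∀ t ∈ T, ∀ e ∈ E, t * e * t⁻¹ ∈ E

/-- The standing situation: `K = T⟨x⟩`, `T` a normal locally soluble `p'`-subgroup without proper
`K`-normal subgroups of finite index, `x` a `p`-element, `K` generated by its `p`-elements. -/
structure Gam (p : ℕ) (K : Type) [Group K] (T : Subgroup K) (x : K) : Prop where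
  hp : p.Prime
  lf : LF K
  pm : PMin p K
  nT : T.Normal
  pf : PF p T
  ls : LS T
  xp : Pel p x
  gen : T ⊔ Subgroup.zpowers x = ⊤
  kp : Kp p K = ⊤
  nofin : ∀ C : Subgroup K, C.Normal → C ≤ T → C.relIndex T ≠ 0 → C = T

/-- the second part of minimality -/
def Chm {K : Type} [Group K] (T : Subgroup K) (x : K) : Prop :=
  ∀ M : Subgroup K, M.Normal → M ≤ T → M ≠ T → Cher (cm M x)

/-- no nontrivial abelian normal subgroup of `K` inside `T` -/
def NoAb {K : Type} [Group K] (T : Subgroup K) : Prop :=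
  ∀ M : Subgroup K, M.Normal → M ≤ T → Abel M → M = ⊥

/-! actions of a group `K` on an additive commutative group `V` by additive maps -/

/-- an action of `K` on `V` by additive maps -/
structure Act (K V : Type) [Group K] [AddCommGroup V] where
  f : K → V → V
  one' : ∀ v, f 1 v = v
  mul' : ∀ a b v, f (a * b) v = f a (f b v)
  add' : ∀ a v w, f a (v + w) = f a v + f a w

namespace Act

variable {K V : Type} [Group K] [AddCommGroup V] (ρ : Act K V)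

/-- the additive map of a group element -/
def hom (k : K) : V →+ V := AddMonoidHom.mk' (ρ.f k) (ρ.add' k)

@[simp] theorem hom_apply (k : K) (v : V) : ρ.hom k v = ρ.f k v := rfl

theorem zero' (k : K) : ρ.f k 0 = 0 := (ρ.hom k).map_zero

theorem neg' (k : K) (v : V) : ρ.f k (-v) = -ρ.f k v := (ρ.hom k).map_neg v

theorem sub' (k : K) (v w : V) : ρ.f k (v - w) = ρ.f k v - ρ.f k w := (ρ.hom k).map_sub v w

theorem nsmul' (k : K) (n : ℕ) (v : V) : ρ.f k (n • v) = n • ρ.f k v := (ρ.hom k).map_nsmul n v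

theorem inv_f (k : K) (v : V) : ρ.f k⁻¹ (ρ.f k v) = v := by
  rw [← ρ.mul', inv_mul_cancel, ρ.one']

theorem f_inv (k : K) (v : V) : ρ.f k (ρ.f k⁻¹ v) = v := by
  rw [← ρ.mul', mul_inv_cancel, ρ.one']

theorem inj (k : K) : Function.Injective (ρ.f k) := fun a b h => by
  rw [← ρ.inv_f k a, h, ρ.inv_f]

/-- stable subgroups -/
def Stb (W : AddSubgroup V) : Prop := ∀ k : K, ∀ w ∈ W, ρ.f k w ∈ W

/-- the subgroup `{x v - v}` -/
def dS (x : K) : AddSubgroup V := AddMonoidHom.range (ρ.hom x - AddMonoidHom.id V)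

theorem mem_dS (x : K) (w : V) : w ∈ ρ.dS x ↔ ∃ v, ρ.f x v - v = w := Iff.rfl

/-- irreducible -/
def Irr : Prop := (∃ v : V, v ≠ 0) ∧ ∀ W : AddSubgroup V, ρ.Stb W → W = ⊥ ∨ W = ⊤

/-- faithful -/
def Fai : Prop := ∀ k : K, (∀ v, ρ.f k v = v) → k = 1

/-- restriction of an action to a stable subgroup -/
def res (W : AddSubgroup V) (h : ρ.Stb W) : Act K W where
  f k w := ⟨ρ.f k w, h k w w.2⟩
  one' _ := Subtype.ext (ρ.one' _)
  mul' _ _ _ := Subtype.ext (ρ.mul' _ _ _)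
  add' _ _ _ := Subtype.ext (ρ.add' _ _ _)

@[simp] theorem res_f (W : AddSubgroup V) (h : ρ.Stb W) (k : K) (w : W) :
    (((ρ.res W h).f k w : W) : V) = ρ.f k w := rfl

/-- the action on the quotient by a stable subgroup -/
def quo (W : AddSubgroup V) (h : ρ.Stb W) : Act K (V ⧸ W) where
  f k := QuotientAddGroup.map W W (ρ.hom k) (fun w hw => h k w hw)
  one' v := by
    obtain ⟨v, rfl⟩ := QuotientAddGroup.mk_surjective v
    exact congrArg QuotientAddGroup.mk (ρ.one' v)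
  mul' a b v := by
    obtain ⟨v, rfl⟩ := QuotientAddGroup.mk_surjective v
    exact congrArg QuotientAddGroup.mk (ρ.mul' a b v)
  add' a v w := by rw [map_add]

@[simp] theorem quo_f (W : AddSubgroup V) (h : ρ.Stb W) (k : K) (v : V) :
    (ρ.quo W h).f k (v : V ⧸ W) = ((ρ.f k v : V) : V ⧸ W) := rfl

/-- restriction of an action to a subgroup of the group -/
def sub (H : Subgroup K) : Act H V where
  f h v := ρ.f h v
  one' v := ρ.one' v
  mul' _ _ v := ρ.mul' _ _ v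
  add' _ v w := ρ.add' _ v w

@[simp] theorem sub_f (H : Subgroup K) (h : H) (v : V) : (ρ.sub H).f h v = ρ.f h v := rfl

end Act

/-! ### Chernikov groups -/

def S_SOCQ : Prop := ∀ (G G' : Type) [Group G] [Group G'] (f : G →* G') (E : Subgroup G),
  LF G → Cher E → Cher (E.map f)

def S_DIV : Prop := ∀ (G : Type) [Group G] (E : Subgroup G), LF G → Cher E →
  ∃ D : Subgroup G, D ≤ E ∧ D.relIndex E ≠ 0 ∧ Abel D ∧ Divb D ∧ (Soc D).Finite ∧
    ∃ m : ℕ, 0 < m ∧ ∀ g, g ∈ D ↔ ∃ e ∈ E, e ^ m = g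

def S_COM : Prop := ∀ (G : Type) [Group G] (A B : Subgroup G), (∀ a ∈ A, IsOfFinOrder a) →
  Abel A → Abel B → Divb B → Nrm B A → Nrm A B → ∀ a ∈ A, ∀ b ∈ B, a * b = b * a

def S_SUP : Prop := ∀ (G : Type) [Group G] (A B : Subgroup G), LF G → Cher A → Cher B →
  Nrm B A → Nrm A B → Cher (A ⊔ B)

def S_SUPF : Prop := ∀ (G : Type) [Group G] (S : Set (Subgroup G)) (T : Subgroup G), LF G →
  S.Finite → (∀ E ∈ S, E ≤ T ∧ Nrm T E ∧ Cher E) → Cher (sSup S)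

/-! ### hereditary properties -/

def S_LFS : Prop := ∀ (G : Type) [Group G] (H : Subgroup G), LF G → LF H

def S_LFQ : Prop := ∀ (G : Type) [Group G] (N : Subgroup G) [N.Normal], LF G → LF (G ⧸ N)

def S_PMS : Prop := ∀ (p : ℕ) (G : Type) [Group G] (H : Subgroup G), PMin p G → PMin p H

def S_PMQ : Prop := ∀ (p : ℕ) (G : Type) [Group G] (N : Subgroup G) [N.Normal], p.Prime → LF G →
  PMin p G → PMin p (G ⧸ N)

def S_PFQ : Prop := ∀ (p : ℕ) (G : Type) [Group G] (N T : Subgroup G) [N.Normal], p.Prime → LF G →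
  PF p T → N ≤ T → PF p (T.map (QuotientGroup.mk' N))

def S_LSQ : Prop := ∀ (G : Type) [Group G] (N T : Subgroup G) [N.Normal], LF G → LS T → N ≤ T →
  LS (T.map (QuotientGroup.mk' N))

/-! ### the two reductions -/

def S_S0 : Prop := ∀ (p : ℕ) (K : Type) [Group K] (T : Subgroup K), p.Prime → LF K → T.Normal →
  PF p T → T.index ≠ 0 → Kp p K = ⊤ → (∀ y : K, Pel p y → Cher (cm T y)) → Cher (⊤ : Subgroup K)

def S_SYL : Prop := ∀ (p : ℕ) (K : Type) [Group K] (T : Subgroup K) (x : K), p.Prime → LF K →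
  T.Normal → PF p T → Pel p x → T ⊔ Subgroup.zpowers x = ⊤ → ∀ H : Subgroup K,
  (H : Set K).Finite → x ∈ H → ∀ y ∈ H, Pel p y → ∃ h ∈ H, ∃ j : ℤ, y = h * x ^ j * h⁻¹

def S_LOC : Prop := ∀ (p : ℕ) (K : Type) [Group K] (T : Subgroup K) (x : K), Gam p K T x →
  ∀ X : Set K, X.Finite → ∃ H : Subgroup K, (H : Set K).Finite ∧ X ⊆ H ∧ x ∈ H ∧ Group.IsSolvable H ∧
    ∀ L : Subgroup K, x ∈ L → Nrm H L → H ≤ L

def S_AB : Prop := ∀ (p : ℕ) (K : Type) [Group K] (T : Subgroup K) (x : K), Gam p K T x →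
  ∀ C : Subgroup K, C.Normal → C ≤ T → ∀ n : ℕ, 0 < n → (∀ t ∈ T, t ^ n ∈ C) →
  (∀ s ∈ T, ∀ t ∈ T, s * t * s⁻¹ * t⁻¹ ∈ C) → C = T

/-! ### Lemma L: irreducible actions of finite soluble groups -/

def S_L1 : Prop := ∀ (H Ω : Type) [Group H] [Finite H] [Group.IsSolvable H] [MulAction H Ω]
  [MulAction.IsPretransitive H Ω] [Nontrivial Ω] (x : H), Subgroup.normalClosure {x} = ⊤ →
  ∃ y : H, (y = x ∨ ∃ b : H, y = x * b * x⁻¹ * b⁻¹) ∧ ∀ ω : Ω, y • ω ≠ ω

def S_COMM : Prop := ∀ (H V : Type) [Group H] [AddCommGroup V] [Finite V]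
  (ρ : Act H V) (x b : H),
  Nat.card (ρ.dS (x * b * x⁻¹ * b⁻¹)) ≤ Nat.card (ρ.dS x) ^ 2

def S_FPF : Prop := ∀ (H V : Type) [Group H] [AddCommGroup V] [Finite V]
  (ρ : Act H V) (z : H), (∀ v, ρ.f z v = v → v = 0) →
  Nat.card V = Nat.card (ρ.dS z)

def S_LNA : Prop := ∀ (H V : Type) [Group H] [Finite H] [Group.IsSolvable H] [AddCommGroup V] [Finite V]
  (ρ : Act H V) (x : H), ρ.Fai → ρ.Irr → x ≠ 1 →
  Subgroup.normalClosure {x} = ⊤ → Nat.card V ≤ Nat.card (ρ.dS x) ^ 4 ∨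
    ∃ N : Subgroup H, N.Normal ∧ Abel N ∧ ∃ g ∈ N, x * g * x⁻¹ * g⁻¹ ≠ 1

def S_COP : Prop := ∀ (H V : Type) [Group H] [Finite H] [AddCommGroup V] [Finite V]
  (ρ : Act H V) (N : Subgroup H), ρ.Fai → ρ.Irr → N.Normal → Abel N →
  ∀ N₀ : Subgroup H, N₀ ≤ N → ∀ v : V, Nat.card N₀ • v = 0 → v = 0

def S_HALF : Prop := ∀ (Ω : Type) [Finite Ω] (σ : Equiv.Perm Ω), (∀ ω, σ ω ≠ ω) →
  ∃ S : Set Ω, (∀ ω ∈ S, σ ω ∉ S) ∧ ∀ ω, ω ∈ S ∨ σ ω ∈ S ∨ ∃ ω' ∈ S, ω = σ ω'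

/-- case B: an abelian normal subgroup with a nontrivial element having a nonzero fixed vector -/
def S_LB : Prop := ∀ (H V : Type) [Group H] [Finite H] [Group.IsSolvable H] [AddCommGroup V] [Finite V]
  (ρ : Act H V) (x : H), ρ.Fai → ρ.Irr →
  Subgroup.normalClosure {x} = ⊤ → ∀ N : Subgroup H, N.Normal → Abel N →
  (∃ n ∈ N, n ≠ 1 ∧ ∃ v : V, v ≠ 0 ∧ ρ.f n v = v) → Nat.card V ≤ Nat.card (ρ.dS x) ^ 6

def S_L : Prop := ∀ (H V : Type) [Group H] [Finite H] [Group.IsSolvable H] [AddCommGroup V] [Finite V]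
  (ρ : Act H V) (x : H), ρ.Irr → Subgroup.normalClosure {x} = ⊤ → (∃ v, ρ.f x v ≠ v) →
  Nat.card V ≤ Nat.card (ρ.dS x) ^ 6

/-! ### modules of `K` -/

def S_EXT : Prop := ∀ (p : ℕ) (K : Type) [Group K] (T : Subgroup K) (x : K), Gam p K T x →
  ∀ (V : Type) [AddCommGroup V] (ρ : Act K V) (n : ℕ), 0 < n → (∀ v : V, n • v = 0) →
  ∀ W : AddSubgroup V, ρ.Stb W → (∀ t ∈ T, ∀ w ∈ W, ρ.f t w = w) → (∀ t ∈ T, ∀ v, ρ.f t v - v ∈ W) →
  ∀ t ∈ T, ∀ v, ρ.f t v = v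

/-- an irreducible module with finite `dS` is finite -/
def S_IRF : Prop := ∀ (p : ℕ) (K : Type) [Group K] (T : Subgroup K) (x : K), Gam p K T x →
  ∀ (V : Type) [AddCommGroup V] (ρ : Act K V) (q : ℕ), q.Prime →
  (∀ v : V, q • v = 0) → ρ.Irr → (ρ.dS x : Set V).Finite → Finite V

def S_IRR : Prop := ∀ (p : ℕ) (K : Type) [Group K] (T : Subgroup K) (x : K), Gam p K T x →
  ∀ (V : Type) [AddCommGroup V] (ρ : Act K V) (q : ℕ), q.Prime →
  (∀ v : V, q • v = 0) → ρ.Irr → (ρ.dS x : Set V).Finite → ∀ t ∈ T, ∀ v, ρ.f t v = v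

def S_LIN : Prop := ∀ (p : ℕ) (K : Type) [Group K] (T : Subgroup K) (x : K), Gam p K T x →
  ∀ (V : Type) [AddCommGroup V] (ρ : Act K V) (q : ℕ), q.Prime → q ≠ p →
  (∀ v : V, q • v = 0) → (ρ.dS x : Set V).Finite → ∀ t ∈ T, ∀ v, ρ.f t v = v

/-! ### group theory of `K` -/

def S_NCL : Prop := ∀ (p : ℕ) (K : Type) [Group K] (T : Subgroup K) (x : K), Gam p K T x →
  Subgroup.normalClosure {x} = ⊤

def S_CEN : Prop := ∀ (p : ℕ) (K : Type) [Group K] (T : Subgroup K) (x : K), Gam p K T x →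
  ∀ M : Subgroup K, M.Normal → M ≤ T → Abel M → ∀ m ∈ M, ∀ t ∈ T, m * t = t * m

def S_QUO : Prop := ∀ (p : ℕ) (K : Type) [Group K] (T : Subgroup K) (x : K), Gam p K T x →
  ∀ (Z : Subgroup K) [Z.Normal], Z ≤ T →
  Gam p (K ⧸ Z) (T.map (QuotientGroup.mk' Z)) (QuotientGroup.mk' Z x)

def S_CHQ : Prop := ∀ (p : ℕ) (K : Type) [Group K] (T : Subgroup K) (x : K), Gam p K T x → Chm T x →
  ∀ (Z : Subgroup K) [Z.Normal], Z ≤ T → Chm (T.map (QuotientGroup.mk' Z)) (QuotientGroup.mk' Z x)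

/-- `K ⧸ Z(T)` has no abelian normal subgroup in `T ⧸ Z(T)` -/
def S_TOP : Prop := ∀ (p : ℕ) (K : Type) [Group K] (T : Subgroup K) (x : K), Gam p K T x →
  ∀ (Z : Subgroup K) [Z.Normal], (∀ z, z ∈ Z ↔ z ∈ T ∧ ∀ t ∈ T, z * t = t * z) →
  NoAb (T.map (QuotientGroup.mk' Z))

def S_E1 : Prop := ∀ (p : ℕ) (K : Type) [Group K] (T : Subgroup K) (x : K), Gam p K T x → NoAb T →
  ∀ M : Subgroup K, M.Normal → M ≤ T → Cher (cm M x) → (cm M x : Set K).Finite

def S_E2 : Prop := ∀ (p : ℕ) (K : Type) [Group K] (T : Subgroup K) (x : K), Gam p K T x → NoAb T →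
  ∀ M : Subgroup K, M.Normal → M ≤ T → ∀ E : Subgroup K, E ≤ M → Nrm M E → (E : Set K).Finite →
  E = ⊥

def S_E3 : Prop := ∀ (p : ℕ) (K : Type) [Group K] (T : Subgroup K) (x : K), Gam p K T x → NoAb T →
  ∀ M : Subgroup K, M.Normal → M ≤ T → cm M x = ⊥ → M = ⊥

def S_F : Prop := ∀ (p : ℕ) (K : Type) [Group K] (T : Subgroup K) (x : K), Gam p K T x → NoAb T →
  (∀ M : Subgroup K, M.Normal → M ≤ T → M = ⊥ ∨ M = T) → T = ⊥

/-- the subgroup `cm M x` is normalised by `M` and contained in `M` (for `M` normal) -/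
def S_CMN : Prop := ∀ (K : Type) [Group K] (M : Subgroup K) (x : K), M.Normal →
  cm M x ≤ M ∧ Nrm M (cm M x)

def S_CON : Prop := ∀ (p : ℕ) (K : Type) [Group K] (T : Subgroup K) (x : K), Gam p K T x →
  NoAb T → Chm T x → T = ⊥

def S_FIN : Prop := ∀ (p : ℕ) (K : Type) [Group K] (T : Subgroup K) (x : K), Gam p K T x →
  Chm T x → Cher (⊤ : Subgroup K)

def S_MIN : Prop := ∀ (p : ℕ) (G : Type) [Group G], PMin p G → ¬ Cher (Kp p G) →
  ∃ L : Subgroup G, L ≤ Kp p G ∧ Op p L = L ∧ ¬ Cher L ∧ ∀ L' : Subgroup G, L' < L → Cher (Op p L')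

def S_RED : Prop := ∀ (p : ℕ) (K : Type) [Group K] (T : Subgroup K), p.Prime → LF K → PMin p K →
  T.Normal → PF p T → LS T → T.index ≠ 0 → Kp p K = ⊤ → ¬ Cher (⊤ : Subgroup K) →
  (∀ L : Subgroup K, L ≠ ⊤ → Cher (Op p L)) → ∃ x : K, Gam p K T x ∧ Chm T x

def S_RES : Prop := ∀ (p : ℕ) (G : Type) [Group G], p.Prime → LF G → PMin p G →
  (∃ N : Subgroup G, N.Normal ∧ N.index ≠ 0 ∧ PF p N) →
  (∀ V : Subgroup G, V ≤ Kp p G → (V : Set G).Finite → PF p V → Group.IsSolvable V) → Cher (Kp p G)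

end Pool.Agent.Helper98.PS
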