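import Pool.Agent.Helper98.PS.Quo

set_option autoImplicit false

namespace Pool.Agent.Helper98.PS

open Pool.Agent.Helper75.PM (LF PMin Kp cm)

theorem top_part (hCEN : S_CEN) : S_TOP := by
  intro p K _ T x hG Z _ hZ M hMn hMT hMab
  have hsur := QuotientGroup.mk'_surjective Z
  have hTn := hG.nT
  have hZT : Z ≤ T := fun z hz => ((hZ z).1 hz).1
  have hGQ := quo_part p K T x hG Z hZT
  have hcen := hCEN p (K ⧸ Z) _ _ hGQ M hMn hMT hMab
  -- the preimage
  haveI := hMn
  obtain ⟨M', hM'⟩ : ∃ M', M' = M.comap (QuotientGroup.mk' Z) := ⟨_, rfl⟩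
  have hM'n : M'.Normal := hM' ▸ inferInstance
  have hTZ : (T.map (QuotientGroup.mk' Z)).comap (QuotientGroup.mk' Z) = T := by
    rw [Subgroup.comap_map_eq, QuotientGroup.ker_mk', sup_eq_left.2 hZT]
  have hM'T : M' ≤ T := by
    rw [← hTZ, hM']
    exact Subgroup.comap_mono hMT
  have hmemM : ∀ m, m ∈ M' ↔ QuotientGroup.mk' Z m ∈ M := fun m => by rw [hM']; rfl
  have hcomm : ∀ m ∈ M', ∀ t ∈ T, t * m * t⁻¹ * m⁻¹ ∈ Z := by
    intro m hm t ht
    rw [← QuotientGroup.eq_one_iff]
    have h1 := hcen _ ((hmemM m).1 hm) (QuotientGroup.mk' Z t) ⟨t, ht, rfl⟩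
    show QuotientGroup.mk' Z (t * m * t⁻¹ * m⁻¹) = 1
    rw [map_mul, map_mul, map_mul, ← h1, map_inv, map_inv]
    group
  have hZc : ∀ z ∈ Z, ∀ t ∈ T, z * t = t * z := fun z hz t ht => ((hZ z).1 hz).2 t ht
  -- M'(n) is central
  have key : ∀ n : ℕ, 0 < n → ∀ m ∈ M', m ^ n ∈ Z → ∀ t ∈ T, m * t = t * m := by
    intro n hn m0 hm0 hm0n t0 ht0
    let C : Subgroup K :=
      { carrier := {t | t ∈ T ∧ ∀ m ∈ M', m ^ n ∈ Z → t * m * t⁻¹ * m⁻¹ = 1}
        one_mem' := ⟨T.one_mem, fun m _ _ => by group⟩
        mul_mem' := by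
          rintro a b ⟨ha, ha'⟩ ⟨hb, hb'⟩
          refine ⟨T.mul_mem ha hb, fun m hm hmn => ?_⟩
          have h1 := ha' m hm hmn
          have h2 := hb' m hm hmn
          have h3 : a * b * m * (a * b)⁻¹ * m⁻¹ =
              a * (b * m * b⁻¹ * m⁻¹) * m * a⁻¹ * m⁻¹ := by group
          rw [h3, h2]
          have h4 : a * 1 * m * a⁻¹ * m⁻¹ = a * m * a⁻¹ * m⁻¹ := by group
          rw [h4, h1]
        inv_mem' := by
          rintro a ⟨ha, ha'⟩
          refine ⟨T.inv_mem ha, fun m hm hmn => ?_⟩
          have h1 := ha' m hm hmn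
          have h2 : a⁻¹ * m * a⁻¹⁻¹ * m⁻¹ = a⁻¹ * (a * m * a⁻¹ * m⁻¹)⁻¹ * a := by group
          rw [h2, h1]
          group }
    have hCn : C.Normal := by
      refine ⟨fun c hc g => ⟨hTn.conj_mem c hc.1 g, fun m hm hmn => ?_⟩⟩
      have hm1 : g⁻¹ * m * g ∈ M' := by
        have := hM'n.conj_mem m hm g⁻¹
        simpa using this
      have hm2 : (g⁻¹ * m * g) ^ n ∈ Z := by
        have h3 : (g⁻¹ * m * g) ^ n = g⁻¹ * m ^ n * g := by
          have := conj_pow (i := n) (a := g⁻¹) (b := m)
          simpa using this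
        rw [h3]
        have := Subgroup.Normal.conj_mem (H := Z) inferInstance (m ^ n) hmn g⁻¹
        simpa using this
      have h1 := hc.2 _ hm1 hm2
      have h2 : g * c * g⁻¹ * m * (g * c * g⁻¹)⁻¹ * m⁻¹ =
          g * (c * (g⁻¹ * m * g) * c⁻¹ * (g⁻¹ * m * g)⁻¹) * g⁻¹ := by group
      rw [h2, h1]
      group
    have hC : C = T := by
      apply ab_part p K T x hG C hCn (fun c hc => hc.1) n hn
      · intro t ht
        refine ⟨T.pow_mem ht n, fun m hm hmn => ?_⟩
        -- c = [t, m] central in T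
        obtain ⟨c, hc⟩ : ∃ c, c = t * m * t⁻¹ * m⁻¹ := ⟨_, rfl⟩
        have hcZ : c ∈ Z := hc ▸ hcomm m hm t ht
        have hct : c * t = t * c := hZc c hcZ t ht
        have hcm' : c * m = m * c := hZc c hcZ m (hM'T hm)
        have htm : t * m = c * m * t := by rw [hc]; group
        have hk1 : ∀ k : ℕ, t ^ k * m = c ^ k * m * t ^ k := by
          intro k
          induction k with
          | zero => simp
          | succ k ih =>
            have hca' : Commute c t := hct
            calc t ^ (k + 1) * m = t * (t ^ k * m) := by rw [pow_succ']; group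
              _ = t * (c ^ k * m * t ^ k) := by rw [ih]
              _ = (t * c ^ k) * m * t ^ k := by group
              _ = (c ^ k * t) * m * t ^ k := by rw [((hca'.pow_left k).eq)]
              _ = c ^ k * (t * m) * t ^ k := by group
              _ = c ^ k * (c * m * t) * t ^ k := by rw [htm]
              _ = c ^ (k + 1) * m * t ^ (k + 1) := by rw [pow_succ c, pow_succ' t]; group
        have hk2 : ∀ k : ℕ, t * m ^ k = c ^ k * m ^ k * t := by
          intro k
          induction k with
          | zero => simp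
          | succ k ih =>
            have hcbk : Commute c m := hcm'
            calc t * m ^ (k + 1) = t * m ^ k * m := by rw [pow_succ]; group
              _ = c ^ k * m ^ k * (t * m) := by rw [ih]; group
              _ = c ^ k * m ^ k * (c * m * t) := by rw [htm]
              _ = c ^ k * (m ^ k * c) * m * t := by group
              _ = c ^ k * (c * m ^ k) * m * t := by rw [((hcbk.pow_right k).eq)]
              _ = c ^ (k + 1) * m ^ (k + 1) * t := by rw [pow_succ c, pow_succ m]; group
        have hcn : c ^ n = 1 := by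
          have h5 := hk2 n
          have h6 := hZc (m ^ n) hmn t ht
          have h7 : c ^ n * (m ^ n * t) = m ^ n * t := by
            rw [← mul_assoc, ← h5, h6]
          exact mul_eq_right.1 h7
        have h8 := hk1 n
        rw [hcn, one_mul] at h8
        rw [h8]
        group
      · intro s hs t ht
        refine ⟨T.mul_mem (T.mul_mem (T.mul_mem hs ht) (T.inv_mem hs)) (T.inv_mem ht),
          fun m hm _ => ?_⟩
        -- s m = c m s, t m = d m t, c, d central in T
        obtain ⟨c, hc⟩ : ∃ c, c = s * m * s⁻¹ * m⁻¹ := ⟨_, rfl⟩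
        obtain ⟨d, hd⟩ : ∃ d, d = t * m * t⁻¹ * m⁻¹ := ⟨_, rfl⟩
        have hcZ : c ∈ Z := hc ▸ hcomm m hm s hs
        have hdZ : d ∈ Z := hd ▸ hcomm m hm t ht
        have hsm : s * m = c * m * s := by rw [hc]; group
        have htm : t * m = d * m * t := by rw [hd]; group
        have h1 : (s * t) * m = (c * d) * m * (s * t) := by
          calc (s * t) * m = s * (t * m) := by group
            _ = s * (d * m * t) := by rw [htm]
            _ = (s * d) * m * t := by group
            _ = (d * s) * m * t := by rw [hZc d hdZ s hs]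
            _ = d * (s * m) * t := by group
            _ = d * (c * m * s) * t := by rw [hsm]
            _ = (d * c) * m * (s * t) := by group
            _ = (c * d) * m * (s * t) := by rw [hZc c hcZ d (hZT hdZ)]
        have h2 : (t * s) * m = (c * d) * m * (t * s) := by
          calc (t * s) * m = t * (s * m) := by group
            _ = t * (c * m * s) := by rw [hsm]
            _ = (t * c) * m * s := by group
            _ = (c * t) * m * s := by rw [hZc c hcZ t ht]
            _ = c * (t * m) * s := by group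
            _ = c * (d * m * t) * s := by rw [htm]
            _ = (c * d) * m * (t * s) := by group
        have h3 : s * t * s⁻¹ * t⁻¹ = (s * t) * (t * s)⁻¹ := by group
        have h4 : (s * t) * (t * s)⁻¹ * m = m * ((s * t) * (t * s)⁻¹) := by
          have h5 : (t * s)⁻¹ * m = ((c * d)⁻¹ * m) * (t * s)⁻¹ := by
            have hcd : (c * d) * (t * s) = (t * s) * (c * d) := hZc _ (Z.mul_mem hcZ hdZ) _ (T.mul_mem ht hs)
            have hcdm : (c * d) * m = m * (c * d) := hZc _ (Z.mul_mem hcZ hdZ) _ (hM'T hm)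
            have h6 : m = (t * s)⁻¹ * ((c * d) * m * (t * s)) := by rw [← h2]; group
            calc (t * s)⁻¹ * m = (t * s)⁻¹ * ((c * d)⁻¹ * ((c * d) * m)) := by group
              _ = (t * s)⁻¹ * (c * d)⁻¹ * ((c * d) * m * (t * s)) * (t * s)⁻¹ := by group
              _ = ((c * d) * (t * s))⁻¹ * ((c * d) * m * (t * s)) * (t * s)⁻¹ := by group
              _ = ((t * s) * (c * d))⁻¹ * ((c * d) * m * (t * s)) * (t * s)⁻¹ := by rw [hcd]
              _ = (c * d)⁻¹ * ((t * s)⁻¹ * ((c * d) * m * (t * s))) * (t * s)⁻¹ := by group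
              _ = ((c * d)⁻¹ * m) * (t * s)⁻¹ := by rw [← h6]
          calc (s * t) * (t * s)⁻¹ * m = (s * t) * ((t * s)⁻¹ * m) := by group
            _ = (s * t) * (((c * d)⁻¹ * m) * (t * s)⁻¹) := by rw [h5]
            _ = ((s * t) * (c * d)⁻¹) * m * (t * s)⁻¹ := by group
            _ = ((c * d)⁻¹ * (s * t)) * m * (t * s)⁻¹ := by
              rw [hZc _ (Z.inv_mem (Z.mul_mem hcZ hdZ)) _ (T.mul_mem hs ht)]
            _ = (c * d)⁻¹ * ((s * t) * m) * (t * s)⁻¹ := by group
            _ = (c * d)⁻¹ * ((c * d) * m * (s * t)) * (t * s)⁻¹ := by rw [h1]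
            _ = m * ((s * t) * (t * s)⁻¹) := by group
        rw [h3, h4]
        group
    have h9 : t0 ∈ C := hC.symm ▸ ht0
    have h10 := h9.2 m0 hm0 hm0n
    calc m0 * t0 = (t0 * m0 * t0⁻¹ * m0⁻¹)⁻¹ * (t0 * m0) := by group
      _ = t0 * m0 := by rw [h10]; group
  -- conclusion
  rw [eq_bot_iff]
  intro mb hmb
  obtain ⟨m, rfl⟩ := hsur mb
  have hm : m ∈ M' := (hmemM m).2 hmb
  have hfo := Pool.Agent.Helper75.PM.tors hG.lf m
  have h11 : m ∈ Z := by
    rw [hZ]
    refine ⟨hM'T hm, key (orderOf m) hfo.orderOf_pos m hm ?_⟩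
    rw [pow_orderOf_eq_one]
    exact Z.one_mem
  rw [Subgroup.mem_bot]
  exact (QuotientGroup.eq_one_iff m).2 h11

end Pool.Agent.Helper98.PS
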